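import Pool.Agent.H93.CT.Stmts

/-!
# CT modules SCP, AMA, DNU (helper17)
-/

set_option linter.unusedVariables false
set_option synthInstance.maxSize 100000

namespace SW

/-- SCP -/
theorem ct_scp (h1 : UNIStmt) (h2 : CFXStmt) : SCPStmt := by
  intro M _ _ w Z I hb hI f hf
  obtain ⟨a, ha, h⟩ := h1 M w Z I f hb hI hf
  exact ⟨uq f, (h2 M w Z I hb).mem.2 ⟨a, ha⟩, fun n hn => (h n hn).1⟩

section
variable {M : Type} [SetStr M] [ZF M]

theorem ama_lv_mono {p q b v : M} (h : Sub p q) (hl : Lv p b v) : Lv q b v := by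
  obtain ⟨t, g, h1, h2⟩ := hl
  exact ⟨t, g, h _ h1, h2⟩

theorem ama_cb_dmn (hC : CbA M) {p : M} (hp : Cb p) : Cb (dmn p) := by
  refine hC.sub (hC.img (fun z : M => the (fun K : M => ∃ y : M, z = opair K y)) inferInstance hp) ?_
  intro K hK
  obtain ⟨y, hy⟩ := mem_dmn.1 hK
  rw [mem_img' inferInstance]
  refine ⟨_, hy, ?_⟩
  symm
  apply the_eq
  · exact ⟨y, rfl⟩
  · rintro z ⟨y', h⟩
    exact (opair_inj.1 h).1.symm

theorem ama_mem_rj {w Z J p K b x : M} : E (opair K (opair b x)) (rj w Z J p) ↔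
    Et p K b x ∧ (E K J ∨ K = emp) ∧ E b w ∧ E x Z := by
  unfold rj Et
  rw [mem_inter, mem_prod, mem_prod, mem_ins]

/-- the new rows of the old columns -/
noncomputable def amaX (J p a c : M) : M :=
  prod (diff (dmn p) (ins emp J)) (prod (diff c (suc a)) (sing emp))

theorem ama_mem_X {J p a c K b x : M} (hs : ∀ K y, E (opair K y) p → ∃ b x, y = opair b x) :
    E (opair K (opair b x)) (amaX J p a c) ↔
    Col p K ∧ K ≠ emp ∧ ¬ E K J ∧ E b c ∧ ¬ E b (suc a) ∧ x = emp := by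
  unfold amaX Col Et
  rw [mem_prod, mem_prod, mem_diff, mem_diff, mem_sing, mem_ins, mem_dmn]
  constructor
  · rintro ⟨⟨⟨y, hy⟩, h2⟩, ⟨h3, h4⟩, h5⟩
    obtain ⟨b', x', rfl⟩ := hs K y hy
    exact ⟨⟨b', x', hy⟩, fun h => h2 (Or.inr h), fun h => h2 (Or.inl h), h3, h4, h5⟩
  · rintro ⟨⟨b, x, h⟩, h1, h2, h3, h4, h5⟩
    exact ⟨⟨⟨_, h⟩, fun h => h.elim h2 h1⟩, ⟨h3, h4⟩, h5⟩

end

/-- AMA -/
theorem ct_ama (hcf : CFXStmt) (hzf : ZFXStmt) (hrs : RSTStmt) (hcb : CBTStmt) : AMAStmt := by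
  intro M _ _ w Z I J a p q hb hI hJI hJ hp hq hpq
  have hCI := hcf M w Z I hb
  have hCJ := hcf M w Z J hb
  have hZ := hzf M w Z hb
  have hC := hcb M
  obtain ⟨c, hc⟩ := hCJ.mem.1 hq
  obtain ⟨hrj, hrjL⟩ := hrs M w Z I J (suc a) p hb hI hJI hJ hp
  have hac : Sub (suc a) c := hCJ.hmono hrj hc hpq
  have hoc : Ord c := (hCJ.ht hc).2
  have hoa : Ord (suc a) := (hCI.ht hp).2
  obtain ⟨⟨s1, s2, s3, s4, s5, s6, s7⟩, ⟨t1, t2, t3, t4⟩, hKp⟩ := hp
  have hp : Cnd w Z I (suc a) p := ⟨⟨s1, s2, s3, s4, s5, s6, s7⟩, ⟨t1, t2, t3, t4⟩, hKp⟩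
  obtain ⟨⟨u1, u2, u3, u4, u5, u6, u7⟩, ⟨v1, v2, v3, v4⟩, hKq⟩ := hc
  have hc : Cnd w Z J c q := ⟨⟨u1, u2, u3, u4, u5, u6, u7⟩, ⟨v1, v2, v3, v4⟩, hKq⟩
  have hs : ∀ K y, E (opair K y) p → ∃ b x, y = opair b x := by
    intro K y h
    obtain ⟨K', b, x, _, _, _, e⟩ := s3 _ h
    exact ⟨b, x, (opair_inj.1 e).2⟩
  -- entries of `p` in columns of `J`
  have hold : ∀ K b x, Et p K b x → (E K J ∨ K = emp) → Et q K b x := by
    intro K b x h hK
    have h2 := hCI.row hp h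
    exact hpq _ (ama_mem_rj.2 ⟨h, hK, hb.w1.1.1 _ (hCI.ht hp).1 _ h2.1, h2.2.1⟩)
  have hqJ : ∀ K b x, Et q K b x → (E K J ∨ K = emp) := by
    intro K b x h
    exact (hCJ.row hc h).2.2.symm
  have hmr : ∀ K b x, Et (bun (bun p q) (amaX J p a c)) K b x ↔
      Et p K b x ∨ Et q K b x ∨
        (Col p K ∧ K ≠ emp ∧ ¬ E K J ∧ E b c ∧ ¬ E b (suc a) ∧ x = emp) := by
    intro K b x
    show E _ _ ↔ _
    rw [mem_bun, mem_bun, ama_mem_X hs, or_assoc]
    rfl
  -- columns of `J`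
  have hmJ : ∀ K b x, (E K J ∨ K = emp) →
      (Et (bun (bun p q) (amaX J p a c)) K b x ↔ Et q K b x) := by
    intro K b x hK
    rw [hmr]
    constructor
    · rintro (h | h | ⟨_, h1, h2, _⟩)
      · exact hold _ _ _ h hK
      · exact h
      · exact absurd hK (by tauto)
    · exact fun h => Or.inr (Or.inl h)
  have hmI : ∀ K b x, ¬ E K J → K ≠ emp →
      (Et (bun (bun p q) (amaX J p a c)) K b x ↔
        Et p K b x ∨ (Col p K ∧ E b c ∧ ¬ E b (suc a) ∧ x = emp)) := by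
    intro K b x hK hK'
    rw [hmr]
    constructor
    · rintro (h | h | ⟨h0, h1, h2, h3, h4, h5⟩)
      · exact Or.inl h
      · exact absurd (hqJ _ _ _ h) (by tauto)
      · exact Or.inr ⟨h0, h3, h4, h5⟩
    · rintro (h | ⟨h0, h3, h4, h5⟩)
      · exact Or.inl h
      · exact Or.inr (Or.inr ⟨h0, hK', hK, h3, h4, h5⟩)
  have hpr : Sub p (bun (bun p q) (amaX J p a c)) := fun z hz => by
    rw [mem_bun, mem_bun]; exact Or.inl (Or.inl hz)
  have hqr : Sub q (bun (bun p q) (amaX J p a c)) := fun z hz => by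
    rw [mem_bun, mem_bun]; exact Or.inl (Or.inr hz)
  have hLv : ∀ b v, Lv (bun (bun p q) (amaX J p a c)) b v ↔ Lv q b v := by
    intro b v
    unfold Lv
    simp only [hmJ emp b _ (Or.inr rfl)]
  have hInJ : ∀ K b v F, (E K J ∨ K = emp) →
      (InB (bun (bun p q) (amaX J p a c)) K b v F ↔ InB q K b v F) := by
    intro K b v F hK
    unfold InB
    simp only [hmJ K b _ hK]
  have hActJ : ∀ K b, (E K J ∨ K = emp) →
      (Act (bun (bun p q) (amaX J p a c)) K b ↔ Act q K b) := by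
    intro K b hK
    unfold Act
    simp only [hInJ K b _ _ hK]
  have hInI : ∀ K b v F, ¬ E K J → K ≠ emp →
      (InB (bun (bun p q) (amaX J p a c)) K b v F ↔ InB p K b v F) := by
    intro K b v F hK hK'
    unfold InB
    constructor
    · rintro ⟨x, hx, hv⟩
      rcases (hmI K b x hK hK').1 hx with h | ⟨_, _, _, rfl⟩
      · exact ⟨x, h, hv⟩
      · exact absurd hv (not_mem_emp _)
    · rintro ⟨x, hx, hv⟩
      exact ⟨x, hpr _ hx, hv⟩
  have hActI : ∀ K b, ¬ E K J → K ≠ emp →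
      (Act (bun (bun p q) (amaX J p a c)) K b ↔ Act p K b) := by
    intro K b hK hK'
    unfold Act
    simp only [hInI K b _ _ hK hK']
  have hcbr : Cb (bun (bun p q) (amaX J p a c)) := by
    refine hC.bun (hC.bun s2 u2) ?_
    refine hC.prod (hC.sub (ama_cb_dmn hC.toCbA s2) ?_) (hC.prod (hC.sub (?_ : Cb c) ?_) ?_)
    · intro z hz
      exact (mem_diff.1 hz).1
    · rcases u1 with h | h
      · exact hb.w1.2.2 c h
      · subst h
        exact hC.fin (finF.emp)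
    · intro z hz
      exact (mem_diff.1 hz).1
    · exact hC.fin (finF.sub (finF.ins (a := emp) finF.emp)
        (fun z hz => mem_ins.2 (Or.inr (mem_sing.1 hz))))
  refine ⟨bun (bun p q) (amaX J p a c), hCI.mem.2 ⟨c, ⟨u1, hcbr, ?_, ?_, ?_, ?_, ?_⟩,
    ⟨?_, ?_, ?_, ?_⟩, ?_⟩, hpr, hqr⟩
  · intro z hz
    rw [mem_bun, mem_bun] at hz
    rcases hz with (hz | hz) | hz
    · obtain ⟨K, b, x, h1, h2, h3, rfl⟩ := s3 z hz
      exact ⟨K, b, x, h1, hac b h2, h3, rfl⟩
    · obtain ⟨K, b, x, h1, h2, h3, rfl⟩ := u3 z hz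
      exact ⟨K, b, x, h1.imp id (hJI K), h2, h3, rfl⟩
    · have hz' := hz
      unfold amaX at hz'
      rw [mem_prod'] at hz'
      obtain ⟨K, y, _, hy, rfl⟩ := hz'
      rw [mem_prod'] at hy
      obtain ⟨b, x, _, _, rfl⟩ := hy
      rw [ama_mem_X hs] at hz
      obtain ⟨hcol, h1, h2, h3, h4, rfl⟩ := hz
      exact ⟨K, b, emp, Or.inr (hCI.col hp hcol h1), h3, hZ.eZ, rfl⟩
  · intro K b x x' h h'
    by_cases hK : E K J ∨ K = emp
    · rw [hmJ K b _ hK] at h h'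
      exact u4 K b x x' h h'
    · push Not at hK
      rw [hmI K b _ hK.1 hK.2] at h h'
      rcases h with h | ⟨_, _, h1, rfl⟩
      · rcases h' with h' | ⟨_, _, h1', rfl⟩
        · exact s4 K b x x' h h'
        · exact absurd (hCI.row hp h).1 h1'
      · rcases h' with h' | ⟨_, _, h1', rfl⟩
        · exact absurd (hCI.row hp h').1 h1
        · rfl
  · rintro K b ⟨b', x', h⟩ hbc
    by_cases hK : E K J ∨ K = emp
    · rw [hmJ K b' _ hK] at h
      obtain ⟨x, hx⟩ := u5 K b ⟨b', x', h⟩ hbc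
      exact ⟨x, hqr _ hx⟩
    · push Not at hK
      rw [hmI K b' _ hK.1 hK.2] at h
      have hcol : Col p K := by
        rcases h with h | ⟨h, _⟩
        · exact ⟨b', x', h⟩
        · exact h
      by_cases hba : E b (suc a)
      · obtain ⟨x, hx⟩ := s5 K b hcol hba
        exact ⟨x, hpr _ hx⟩
      · exact ⟨emp, (hmI K b _ hK.1 hK.2).2 (Or.inr ⟨hcol, hbc, hba, rfl⟩)⟩
  · intro b hbc
    obtain ⟨x, hx⟩ := u6 b hbc
    exact ⟨x, hqr _ hx⟩
  · intro b x h
    rw [hmJ emp b _ (Or.inr rfl)] at h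
    exact u7 b x h
  · intro b v h
    exact v1 b v ((hLv b v).1 h)
  · intro x h
    rw [hmJ emp emp _ (Or.inr rfl)] at h
    exact (hLv _ _).2 (v2 x h)
  · intro b v d h hd
    exact (hLv _ _).2 (v3 b v d ((hLv _ _).1 h) hd)
  · intro d v b x F h hd hx hF hFo hAv
    rw [hmJ emp b _ (Or.inr rfl)] at hx
    obtain ⟨v', h1, h2⟩ := v4 d v b x F ((hLv _ _).1 h) hd hx hF hFo hAv
    exact ⟨v', (hLv _ _).2 h1, h2⟩
  · intro K hKI
    by_cases hK : E K J
    · have hK' : E K J ∨ K = emp := Or.inl hK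
      obtain ⟨k1, k2, k3, k4, k5, k6, k7, k8⟩ := hKq K hK
      refine ⟨?_, ?_, ?_, ?_, ?_, ?_, ?_, ?_⟩
      · intro b x h
        exact k1 b x ((hmJ K b x hK').1 h)
      · intro x h
        exact k2 x ((hmJ K _ x hK').1 h)
      · intro b v F h
        have := k3 b v F ((hInJ K b v F hK').1 h)
        exact ⟨(hLv _ _).2 this.1, this.2⟩
      · intro b v F F' h h'
        exact k4 b v F F' ((hInJ K b v F hK').1 h) ((hInJ K b v F' hK').1 h')
      · intro d b v F e hd h hA he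
        obtain ⟨v', F', h1, h2⟩ := k5 d b v F e hd ((hInJ K d v F hK').1 h)
          ((hActJ K b hK').1 hA) he
        exact ⟨v', F', (hInJ K b v' F' hK').2 h1, h2⟩
      · intro d b v F hd h hA
        obtain ⟨F', h1⟩ := k6 d b v F hd ((hInJ K b v F hK').1 h) ((hActJ K d hK').1 hA)
        exact ⟨F', (hInJ K d _ F' hK').2 h1⟩
      · intro b v F v' F' u h h' hm
        obtain ⟨r, h1, h2⟩ := k7 b v F v' F' u ((hInJ K b v F hK').1 h)
          ((hInJ K b v' F' hK').1 h') hm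
        exact ⟨r, Sub.trans h1 hqr, h2⟩
      · intro b x h hbe hlim
        refine (hActJ K b hK').2 (k8 b x ((hmJ K b x hK').1 h) hbe fun d hd => ?_)
        obtain ⟨d', h1, h2, h3⟩ := hlim d hd
        exact ⟨d', h1, h2, (hActJ K d' hK').1 h3⟩
    · have hK' : K ≠ emp := fun h => hI (h ▸ hKI)
      obtain ⟨k1, k2, k3, k4, k5, k6, k7, k8⟩ := hKp K hKI
      refine ⟨?_, ?_, ?_, ?_, ?_, ?_, ?_, ?_⟩
      · intro b x h
        rcases (hmI K b x hK hK').1 h with h | ⟨_, _, _, rfl⟩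
        · exact k1 b x h
        · exact ⟨hC.fin finF.emp, fun z hz => absurd hz (not_mem_emp z)⟩
      · intro x h
        rcases (hmI K emp x hK hK').1 h with h | ⟨_, _, h2, rfl⟩
        · exact k2 x h
        · exact absurd (emp_mem_ord hoa (fun e => not_mem_emp a (by
            rw [← e, mem_suc]; exact Or.inr rfl))) h2
      · intro b v F h
        have := k3 b v F ((hInI K b v F hK hK').1 h)
        exact ⟨ama_lv_mono hpr this.1, this.2⟩
      · intro b v F F' h h'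
        exact k4 b v F F' ((hInI K b v F hK hK').1 h) ((hInI K b v F' hK hK').1 h')
      · intro d b v F e hd h hA he
        obtain ⟨v', F', h1, h2⟩ := k5 d b v F e hd ((hInI K d v F hK hK').1 h)
          ((hActI K b hK hK').1 hA) he
        exact ⟨v', F', (hInI K b v' F' hK hK').2 h1, h2⟩
      · intro d b v F hd h hA
        obtain ⟨F', h1⟩ := k6 d b v F hd ((hInI K b v F hK hK').1 h) ((hActI K d hK hK').1 hA)
        exact ⟨F', (hInI K d _ F' hK hK').2 h1⟩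
      · intro b v F v' F' u h h' hm
        obtain ⟨r, h1, h2⟩ := k7 b v F v' F' u ((hInI K b v F hK hK').1 h)
          ((hInI K b v' F' hK hK').1 h') hm
        exact ⟨r, Sub.trans h1 hpr, h2⟩
      · intro b x h hbe hlim
        rcases (hmI K b x hK hK').1 h with h | ⟨hcol, hbc, hba, rfl⟩
        · refine (hActI K b hK hK').2 (k8 b x h hbe fun d hd => ?_)
          obtain ⟨d', h1, h2, h3⟩ := hlim d hd
          exact ⟨d', h1, h2, (hActI K d' hK hK').1 h3⟩
        · exfalso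
          have hob : Ord b := hoc.mem hbc
          have hsub : Sub (suc a) b := (Ord.not_mem_iff hob hoa).1 hba
          have hab : E a b := hsub a (mem_suc.2 (Or.inr rfl))
          obtain ⟨d, h1, h2, h3⟩ := hlim a hab
          obtain ⟨v, F, x, hx, _⟩ := (hActI K d hK hK').1 h3
          have hd := (hCI.row hp hx).1
          rw [mem_suc] at hd
          rcases hd with hd | rfl
          · exact not_mem_cycle h2 hd
          · exact not_mem_self _ h2

/-- DNU -/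
theorem ct_dnu (hcf : CFXStmt) (hex : EXTStmt) (hrs : RSTStmt) (ham : AMAStmt) : DNUStmt := by
  intro M _ _ w Z I J K hb hI hJI hJ hD p b v F hp hL hF hFo hAv
  have hCI := hcf M w Z I hb
  have hCJ := hcf M w Z J hb
  obtain ⟨a, ha⟩ := hCI.mem.1 hp
  obtain ⟨p1, t, hp1, hpp1, _⟩ := hex M w Z I a p emp hb hI ha
    (fun z hz => absurd hz (not_mem_emp z))
  obtain ⟨hrj, hrjL⟩ := hrs M w Z I J (suc a) p1 hb hI hJI hJ hp1
  have hL1 : Lv (rj w Z J p1) b v := (hrjL b v).2 (ama_lv_mono hpp1 hL)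
  obtain ⟨q, c, u, r, h1, h2, h3, h4, h5, h6, h7⟩ := hD (rj w Z J p1) b v F (hCJ.mem.2 ⟨_, hrj⟩)
    hL1 hF hFo hAv
  obtain ⟨s, hs, hps, hqs⟩ := ham M w Z I J a p1 q hb hI hJI hJ hp1 h1 h2
  exact ⟨s, c, u, r, hs, Sub.trans hpp1 hps, ama_lv_mono hqs h3, h4, h5, Sub.trans h6 hqs, h7⟩

end SW
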